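import Pool.Agent.Helper64.Rig.Basics
import Mathlib

/-! Packet Gen of MP_148db9_ag. -/

namespace Pool.Agent.Helper96.Rig

open Pool.Agent.Helper64.Rig
open Polynomial

noncomputable section

/-- the ring `C[c][T]` evaluation at `(ξ, c)` -/
def evc (ξ c : ℂ) : ℂ[X][X] →+* ℂ := Polynomial.eval₂RingHom (Polynomial.evalRingHom c) ξ

def phi : MvPolynomial (Fin 3) ℂ →ₐ[ℂ] ℂ[X][X] := MvPolynomial.aeval ![X, C X, 1]

def fpol : ℂ[X][X] := X ^ 5 + C (X ^ 5 + 1)

theorem evc_phi (ξ c : ℂ) (G : MvPolynomial (Fin 3) ℂ) :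
    evc ξ c (phi G) = MvPolynomial.eval ![ξ, c, 1] G := by
  have : (evc ξ c).comp (phi : MvPolynomial (Fin 3) ℂ →+* ℂ[X][X]) =
      MvPolynomial.eval ![ξ, c, 1] := by
    apply MvPolynomial.ringHom_ext
    · intro r
      simp [evc, phi, Polynomial.algebraMap_apply]
    · intro i
      fin_cases i <;> simp [evc, phi]
  exact congrArg (fun h : MvPolynomial (Fin 3) ℂ →+* ℂ => h G) this

theorem evc_fpol (ξ c : ℂ) : evc ξ c fpol = ξ ^ 5 + c ^ 5 + 1 := by
  rw [evc, fpol, Polynomial.coe_eval₂RingHom, Polynomial.eval₂_add, Polynomial.eval₂_pow,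
    Polynomial.eval₂_X, Polynomial.eval₂_C, Polynomial.coe_evalRingHom, Polynomial.eval_add,
    Polynomial.eval_pow, Polynomial.eval_X, Polynomial.eval_one, add_assoc]

theorem coeff_zero_fpol : fpol.coeff 0 = X ^ 5 + 1 := by
  rw [fpol, Polynomial.coeff_add, Polynomial.coeff_X_pow, Polynomial.coeff_C_zero,
    if_neg (by norm_num), zero_add]

theorem fpol_monic : fpol.Monic := Polynomial.monic_X_pow_add_C _ (by norm_num)

theorem natDegree_fpol : fpol.natDegree = 5 := Polynomial.natDegree_X_pow_add_C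

theorem not_sq_dvd : ¬ ((X + C 1 : ℂ[X]) ^ 2 ∣ X ^ 5 + 1) := by
  rintro ⟨q, hq⟩
  have h := congrArg (fun p => (Polynomial.derivative p).eval (-1)) hq
  simp only [Polynomial.derivative_mul, Polynomial.derivative_pow, Polynomial.derivative_add,
    Polynomial.derivative_X, Polynomial.derivative_C, Polynomial.derivative_one,
    Polynomial.eval_add, Polynomial.eval_mul, Polynomial.eval_pow, Polynomial.eval_X,
    Polynomial.eval_C, Polynomial.eval_one, Polynomial.eval_zero] at h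
  norm_num at h

theorem prime_XC : Prime (X + C 1 : ℂ[X]) := by
  have := Polynomial.prime_X_sub_C (R := ℂ) (-1)
  simpa using this

theorem fpol_irreducible : Irreducible fpol := by
  have hP : (Ideal.span {(X + C 1 : ℂ[X])}).IsPrime :=
    (Ideal.span_singleton_prime prime_XC.ne_zero).2 prime_XC
  refine Polynomial.irreducible_of_eisenstein_criterion hP ?_ ?_ ?_ ?_ fpol_monic.isPrimitive
  · rw [fpol_monic.leadingCoeff]
    intro h
    exact hP.ne_top ((Ideal.eq_top_iff_one _).2 h)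
  · intro n hn
    rw [Polynomial.degree_eq_natDegree fpol_monic.ne_zero, natDegree_fpol] at hn
    have hn' : n < 5 := by exact_mod_cast hn
    rcases Nat.eq_zero_or_pos n with rfl | hpos
    · rw [Ideal.mem_span_singleton]
      rw [coeff_zero_fpol]
      refine ⟨X ^ 4 - X ^ 3 + X ^ 2 - X + 1, ?_⟩
      simp only [map_one]
      ring
    · have : fpol.coeff n = 0 := by
        rw [fpol, Polynomial.coeff_add, Polynomial.coeff_X_pow, Polynomial.coeff_C,
          if_neg hn'.ne, if_neg hpos.ne', add_zero]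
      rw [this]; exact Ideal.zero_mem _
  · rw [Polynomial.degree_eq_natDegree fpol_monic.ne_zero, natDegree_fpol]; norm_num
  · rw [Ideal.span_singleton_pow, Ideal.mem_span_singleton]
    rw [coeff_zero_fpol]
    exact not_sq_dvd

theorem exists_r (g : ℂ[X][X]) (hg : ¬ fpol ∣ g) :
    ∃ r : ℂ[X], r ≠ 0 ∧ ∀ ξ c : ℂ, ξ ^ 5 + c ^ 5 + 1 = 0 → evc ξ c g = 0 → r.eval c = 0 := by
  have hprime : Prime fpol := fpol_irreducible.prime
  have : Fact (Irreducible fpol) := ⟨fpol_irreducible⟩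
  have : IsDomain (AdjoinRoot fpol) := AdjoinRoot.isDomain_of_prime hprime
  have hne : AdjoinRoot.mk fpol g ≠ 0 := by
    rw [Ne, AdjoinRoot.mk_eq_zero]; exact hg
  have hint : IsIntegral ℂ[X] (AdjoinRoot.mk fpol g) := by
    have := fpol_monic.finite_adjoinRoot
    exact Algebra.IsIntegral.isIntegral _
  have h := Ideal.comap_ne_bot_of_integral_mem (I := Ideal.span {AdjoinRoot.mk fpol g}) hne
    (Ideal.mem_span_singleton_self _) hint
  obtain ⟨r, hr, hr0⟩ := Submodule.exists_mem_ne_zero_of_ne_bot h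
  refine ⟨r, hr0, ?_⟩
  intro ξ c hξ hg0
  rw [Ideal.mem_comap, Ideal.mem_span_singleton] at hr
  obtain ⟨t, ht⟩ := hr
  obtain ⟨h', rfl⟩ := AdjoinRoot.mk_surjective t
  have h2 : AdjoinRoot.mk fpol (C r - g * h') = 0 := by
    rw [map_sub, map_mul, ← ht, sub_eq_zero]; rfl
  rw [AdjoinRoot.mk_eq_zero] at h2
  obtain ⟨u, hu⟩ := h2
  have h3 := congrArg (evc ξ c) hu
  rw [map_sub, map_mul, map_mul, hg0, evc_fpol, hξ, zero_mul, zero_mul, sub_zero] at h3
  simpa [evc] using h3

theorem eval_smul {d : ℕ} {G : MvPolynomial (Fin 3) ℂ} (hG : G.IsHomogeneous d) (z : ℂ)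
    (v : Fin 3 → ℂ) : MvPolynomial.eval (fun i => z * v i) G = z ^ d * MvPolynomial.eval v G := by
  rw [MvPolynomial.eval_eq, MvPolynomial.eval_eq, Finset.mul_sum]
  apply Finset.sum_congr rfl
  intro m hm
  have hdeg := degree_of_homog hG (MvPolynomial.mem_support_iff.1 hm)
  rw [Finsupp.degree_apply] at hdeg
  simp only [mul_pow, Finset.prod_mul_distrib]
  rw [Finset.prod_pow_eq_pow_sum, hdeg]
  ring

theorem five_roots (a : ℂ) (ha : a ≠ 0) : ∃ s : Finset ℂ, s.card = 5 ∧ ∀ x ∈ s, x ^ 5 = a := by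
  obtain ⟨x0, hx0⟩ := IsAlgClosed.exists_pow_nat_eq a (n := 5) (by norm_num)
  have hx0' : x0 ≠ 0 := by rintro rfl; apply ha; rw [← hx0]; norm_num
  have hζ := Complex.isPrimitiveRoot_exp 5 (by norm_num)
  set ζ := Complex.exp (2 * Real.pi * Complex.I / (5 : ℕ)) with hζdef
  refine ⟨(Finset.range 5).image (fun i => ζ ^ i * x0), ?_, ?_⟩
  · rw [Finset.card_image_of_injOn, Finset.card_range]
    intro i hi j hj hij
    have h := mul_right_cancel₀ hx0' hij
    exact hζ.pow_inj (by simpa using hi) (by simpa using hj) h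
  · intro x hx
    rw [Finset.mem_image] at hx
    obtain ⟨i, _, rfl⟩ := hx
    rw [mul_pow, ← pow_mul, mul_comm i 5, pow_mul, hζ.pow_eq_one, one_pow, one_mul, hx0]

theorem FF_dvd_of (G : MvPolynomial (Fin 3) ℂ)
    (h : ∀ x y z : ℂ, z ≠ 0 → x ^ 5 + y ^ 5 + z ^ 5 = 0 → MvPolynomial.eval ![x, y, z] G = 0) :
    FF ∣ G := by
  set A : MvPolynomial (Fin 2) ℂ := MvPolynomial.X 0 ^ 5 + MvPolynomial.X 1 ^ 5 with hA
  have hF : MvPolynomial.finSuccEquiv ℂ 2 FF = X ^ 5 + C A := by
    have h1 : (1 : Fin 3) = Fin.succ (0 : Fin 2) := rfl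
    have h2 : (2 : Fin 3) = Fin.succ (1 : Fin 2) := rfl
    rw [FF, Fin.sum_univ_three, map_add, map_add, map_pow, map_pow, map_pow,
      MvPolynomial.finSuccEquiv_X_zero, h1, h2, MvPolynomial.finSuccEquiv_X_succ,
      MvPolynomial.finSuccEquiv_X_succ, hA, map_add, map_pow, map_pow, add_assoc]
  have hmon : (X ^ 5 + C A : Polynomial (MvPolynomial (Fin 2) ℂ)).Monic :=
    Polynomial.monic_X_pow_add_C _ (by norm_num)
  have hnat : (X ^ 5 + C A : Polynomial (MvPolynomial (Fin 2) ℂ)).natDegree = 5 :=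
    Polynomial.natDegree_X_pow_add_C
  set Γ := MvPolynomial.finSuccEquiv ℂ 2 G with hΓ
  set ρ := Γ %ₘ (X ^ 5 + C A) with hρ
  have hdeg : ρ.natDegree < 5 := by
    have := Polynomial.natDegree_modByMonic_lt Γ hmon (by
      intro h1; rw [h1] at hnat; simp at hnat)
    rwa [hnat] at this
  have hmap : ∀ s : Fin 2 → ℂ, s 1 ≠ 0 → s 0 ^ 5 + s 1 ^ 5 ≠ 0 →
      ρ.map (MvPolynomial.eval s) = 0 := by
    intro s hs hs5
    obtain ⟨t, ht, htr⟩ := five_roots (-(s 0 ^ 5 + s 1 ^ 5)) (neg_ne_zero.2 hs5)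
    refine Polynomial.eq_zero_of_natDegree_lt_card_of_eval_eq_zero' _ t ?_ ?_
    · intro x hx
      have hx5 := htr x hx
      have h0 : MvPolynomial.eval (Fin.cons x s : Fin 3 → ℂ) G = 0 := by
        have : (Fin.cons x s : Fin 3 → ℂ) = ![x, s 0, s 1] := by
          funext i; fin_cases i <;> rfl
        rw [this]
        apply h _ _ _ hs
        rw [hx5]; ring
      rw [MvPolynomial.eval_eq_eval_mv_eval'] at h0
      have hdiv := Polynomial.modByMonic_add_div Γ (X ^ 5 + C A)
      rw [← hΓ, ← hdiv, Polynomial.map_add, Polynomial.map_mul, Polynomial.eval_add,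
        Polynomial.eval_mul] at h0
      have hz : Polynomial.eval x (Polynomial.map (MvPolynomial.eval s)
          (X ^ 5 + C A : Polynomial (MvPolynomial (Fin 2) ℂ))) = 0 := by
        simp [hA, hx5]
      rwa [hz, zero_mul, add_zero] at h0
    · rw [ht]
      exact lt_of_le_of_lt Polynomial.natDegree_map_le hdeg
  have hρ0 : ρ = 0 := by
    ext1 k
    have hB : (MvPolynomial.X 1 * A : MvPolynomial (Fin 2) ℂ) ≠ 0 := by
      intro h0
      have := congrArg (MvPolynomial.eval ![0, 1]) h0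
      simp [hA] at this
    have hprod : ρ.coeff k * (MvPolynomial.X 1 * A) = 0 := by
      apply MvPolynomial.funext
      intro s
      rw [map_mul, map_mul, map_zero]
      by_cases hs : s 1 = 0
      · simp [hs]
      · by_cases hs5 : s 0 ^ 5 + s 1 ^ 5 = 0
        · simp [hA, hs5]
        · have := congrArg (fun p => Polynomial.coeff p k) (hmap s hs hs5)
          simp only [Polynomial.coeff_map, Polynomial.coeff_zero] at this
          rw [this, zero_mul]
    rcases mul_eq_zero.1 hprod with h1 | h1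
    · rw [h1, Polynomial.coeff_zero]
    · exact absurd h1 hB
  have hdvd : MvPolynomial.finSuccEquiv ℂ 2 FF ∣ MvPolynomial.finSuccEquiv ℂ 2 G := by
    rw [hF]
    exact (Polynomial.modByMonic_eq_zero_iff_dvd hmon).1 hρ0
  exact (map_dvd_iff (MvPolynomial.finSuccEquiv ℂ 2)).1 hdvd

theorem pf_Gen : StmtGen := by
  intro d G hG hnd
  have hnot : ¬ fpol ∣ phi G := by
    intro hdvd
    apply hnd
    apply FF_dvd_of
    intro x y z hz hxyz
    obtain ⟨h', hh⟩ := hdvd
    have h0 : MvPolynomial.eval ![x / z, y / z, 1] G = 0 := by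
      rw [← evc_phi, hh, map_mul, evc_fpol]
      have : (x / z) ^ 5 + (y / z) ^ 5 + 1 = 0 := by
        have h5 : z ^ 5 ≠ 0 := pow_ne_zero _ hz
        have h6 : (x / z) ^ 5 + (y / z) ^ 5 + 1 = (x ^ 5 + y ^ 5 + z ^ 5) / z ^ 5 := by
          rw [div_pow, div_pow, add_div, add_div, div_self h5]
        rw [h6, hxyz, zero_div]
      rw [this, zero_mul]
    have h1 := eval_smul hG z ![x / z, y / z, 1]
    rw [h0, mul_zero] at h1
    have hfun : (fun i => z * (![x / z, y / z, 1] : Fin 3 → ℂ) i) = ![x, y, z] := by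
      funext i
      fin_cases i
      · exact mul_div_cancel₀ x hz
      · exact mul_div_cancel₀ y hz
      · exact mul_one z
    rwa [hfun] at h1
  obtain ⟨r, hr0, hr⟩ := exists_r (phi G) hnot
  refine (r.roots.toFinset.finite_toSet).subset ?_
  rintro c ⟨ξ, hξ, hGc⟩
  rw [Finset.mem_coe, Multiset.mem_toFinset, Polynomial.mem_roots hr0]
  exact hr ξ c hξ (by rw [evc_phi]; exact hGc)

end

end Pool.Agent.Helper96.Rig
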